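import Pool.Agent.Helper50.KP.Goals

/-!
Packet PGE of project KP (MP_5a63b6_lc): the programs of the wires.
-/

set_option autoImplicit false

namespace Pool.Agent.Helper90.KP

open Pool.Agent.Helper50.KP

theorem er_nil (S : ℕ → Bool) (c : ℕ) : er S c [] = [] := by cases c <;> rfl

theorem fn_nil (N c : ℕ) : fn N c [] = some c := by cases c <;> rfl

theorem prog_nil (n : ℕ) : prog n [] = [] := rfl

theorem prog_cons (n : ℕ) (e : ℕ × ℕ) (ps : List (ℕ × ℕ)) :
    prog n (e :: ps) =
      hook (2 * (n - 1 - max e.1 e.2)) (2 * (max e.1 e.2 - min e.1 e.2) - 1) ++ prog n ps := by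
  unfold prog
  rw [List.map_cons, List.flatten_cons]

theorem arith (n x y : ℕ) (hx : x < n) (hy : y < n) (hxy : x ≠ y) :
    2 * (n - 1 - max x y) + (2 * (max x y - min x y) - 1) + 1 = 2 * (n - 1 - min x y) ∧
      2 * (n - 1 - min x y) < 2 * n := by
  omega

theorem Sl_iff (n M : ℕ) (l : List ℕ) (hM : M < n) :
    Sl n l (2 * (n - 1 - M)) = true ↔ M ∈ l := by
  unfold Sl
  rw [decide_eq_true_iff]
  have h1 : n - 1 - 2 * (n - 1 - M) / 2 = M := by omega
  rw [h1]
  constructor
  · exact fun h => h.2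
  · exact fun h => ⟨by omega, h⟩

theorem gPGE (hLOW : Pool.Agent.Helper50.KP.LOW) (hPRL : Pool.Agent.Helper50.KP.PRL)
    (hHKE : Pool.Agent.Helper50.KP.HKE) : Pool.Agent.Helper50.KP.PGE := by
  have hfn : ∀ (n : ℕ) (e : ℕ × ℕ), e.1 < n → e.2 < n → e.1 ≠ e.2 →
      fn (2 * n) 0 (hook (2 * (n - 1 - max e.1 e.2)) (2 * (max e.1 e.2 - min e.1 e.2) - 1)) =
        some 0 := by
    intro n e h1 h2 h3
    obtain ⟨a1, a2⟩ := arith n e.1 e.2 h1 h2 h3
    exact hHKE.1 _ _ _ (by omega)
  refine ⟨?_, ?_⟩
  · intro n ps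
    induction ps with
    | nil => intro _; exact fn_nil _ _
    | cons e ps ih =>
      intro h
      obtain ⟨h1, h2, h3⟩ := h e List.mem_cons_self
      rw [prog_cons, hLOW.1, hfn n e h1 h2 h3]
      exact ih fun e' he' => h e' (List.mem_cons_of_mem _ he')
  · intro n ps l
    induction ps with
    | nil =>
      intro _ _
      rw [prog_nil, er_nil]
      exact Relation.ReflTransGen.refl
    | cons e ps ih =>
      intro h hl
      obtain ⟨h1, h2, h3⟩ := h e List.mem_cons_self
      have hl1 := hl e List.mem_cons_self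
      rw [prog_cons, hLOW.2.2.2 (2 * n) 0 0 _ _ _ (hfn n e h1 h2 h3)]
      have hk : PR (er (Sl n l) 0 (hook (2 * (n - 1 - max e.1 e.2))
          (2 * (max e.1 e.2 - min e.1 e.2) - 1))) [] := by
        refine hHKE.2.2 _ _ _ ?_
        rw [(arith n e.1 e.2 h1 h2 h3).1, Sl_iff n _ l (max_lt h1 h2),
          Sl_iff n _ l (lt_of_le_of_lt (min_le_left _ _) h1)]
        rintro ⟨m1, m2⟩
        rcases le_total e.1 e.2 with hle | hle
        · rw [max_eq_right hle] at m1
          rw [min_eq_left hle] at m2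
          rcases hl1 with h | h
          · exact h m2
          · exact h m1
        · rw [max_eq_left hle] at m1
          rw [min_eq_right hle] at m2
          rcases hl1 with h | h
          · exact h m1
          · exact h m2
      exact hPRL.2.2 _ [] _ [] hk (ih (fun e' he' => h e' (List.mem_cons_of_mem _ he'))
        (fun e' he' => hl e' (List.mem_cons_of_mem _ he')))

end Pool.Agent.Helper90.KP
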